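import Pool.Agent.H33.KAL.RMG

/-!
# The critical step: rational frames

`W` is the set of the typical values `w` of the blocks of a critical context. The displacement of
the transversal block during the time `t` is `disp t w = P w t - ∑ j, S t j * Φ w j t`, where `P w`
and `Φ w j` are polynomials in the time (the velocity blocks and the monomials of the position at
the time `t`) and `S t` is the unknown frame at the time `t`.

If a displacement difference which is at most `s₀` is at most `η` (no small invariances), then the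
frame is a rational function of the time up to `O(η)` and all displacement differences are
`O(η)`.
-/

set_option autoImplicit false

namespace Pool.QQ

open Finset Real Polynomial

/-- The constant of `poly_lip`. -/
noncomputable def cL (D : ℕ) : ℝ := ((D : ℝ) + 1) * (4 * ((D : ℝ) + 1)) ^ D * 4

lemma cL_pos (D : ℕ) : 0 < cL D := by unfold cL; positivity

/-- A polynomial which is bounded on `[-1, 1]` is Lipschitz at zero. -/
lemma poly_lip (D : ℕ) (f : ℝ[X]) (hD : f.natDegree ≤ D) (E : ℝ)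
    (hE : ∀ t : ℝ, |t| ≤ 1 → |f.eval t| ≤ E) (t : ℝ) (ht : |t| ≤ 1) :
    |f.eval t - f.eval 0| ≤ cL D * E * |t| := by
  have hE0 : 0 ≤ E := (abs_nonneg _).trans (hE 0 (by simp))
  have h1 : ∀ s : ℝ, f.eval s - f.eval 0 = f.divX.eval s * s := by
    intro s
    have h2 := congrArg (Polynomial.eval s) (Polynomial.divX_mul_X_add f)
    rw [Polynomial.eval_add, Polynomial.eval_mul, Polynomial.eval_X, Polynomial.eval_C,
      Polynomial.coeff_zero_eq_eval_zero] at h2
    linarith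
  have hdeg : f.divX.natDegree ≤ D := by
    rw [Polynomial.natDegree_divX_eq_natDegree_tsub_one]
    omega
  have hDp : (0 : ℝ) < (D : ℝ) + 1 := by positivity
  have h3 := Pool.KAL.RMG.lagrange_bound D f.divX
    (fun i : Fin (D + 1) => 1 / 2 + (i : ℕ) / (2 * ((D : ℝ) + 1))) t 2
    (1 / (2 * ((D : ℝ) + 1))) (4 * E) hdeg (by positivity) (by
      intro i j hij
      have h4 : (1 / 2 + ((i : ℕ) : ℝ) / (2 * ((D : ℝ) + 1)) -
          (1 / 2 + ((j : ℕ) : ℝ) / (2 * ((D : ℝ) + 1)))) =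
          (((i : ℕ) : ℝ) - ((j : ℕ) : ℝ)) / (2 * ((D : ℝ) + 1)) := by ring
      rw [h4, abs_div, abs_of_pos (by positivity : (0 : ℝ) < 2 * ((D : ℝ) + 1))]
      refine div_le_div_of_nonneg_right ?_ (by positivity)
      have h5 : (i : ℕ) ≠ (j : ℕ) := fun h => hij (Fin.ext h)
      have h6 : (1 : ℤ) ≤ |((i : ℕ) : ℤ) - ((j : ℕ) : ℤ)| := by
        refine Int.one_le_abs ?_
        omega
      exact_mod_cast h6) (by
      intro i
      have h7 : (0 : ℝ) ≤ ((i : ℕ) : ℝ) / (2 * ((D : ℝ) + 1)) := by positivity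
      have h8 : ((i : ℕ) : ℝ) / (2 * ((D : ℝ) + 1)) ≤ 1 / 2 := by
        rw [div_le_div_iff₀ (by positivity) (by norm_num)]
        have : ((i : ℕ) : ℝ) ≤ D := by exact_mod_cast Nat.le_of_lt_succ i.2
        linarith
      rw [abs_le] at ht ⊢
      constructor <;> linarith [ht.1, ht.2]) (by
      intro i
      have h7 : (0 : ℝ) ≤ ((i : ℕ) : ℝ) / (2 * ((D : ℝ) + 1)) := by positivity
      have h8 : ((i : ℕ) : ℝ) / (2 * ((D : ℝ) + 1)) ≤ 1 / 2 := by
        rw [div_le_div_iff₀ (by positivity) (by norm_num)]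
        have : ((i : ℕ) : ℝ) ≤ D := by exact_mod_cast Nat.le_of_lt_succ i.2
        linarith
      set s : ℝ := 1 / 2 + ((i : ℕ) : ℝ) / (2 * ((D : ℝ) + 1)) with hs
      have hs1 : 1 / 2 ≤ s := by linarith
      have hs2 : s ≤ 1 := by linarith
      have h9 := h1 s
      have h10 : |f.eval s - f.eval 0| ≤ 2 * E := by
        refine (abs_sub _ _).trans ?_
        have a1 := hE s (by rw [abs_of_pos (by linarith)]; exact hs2)
        have a2 := hE 0 (by simp)
        linarith
      rw [h9, abs_mul, abs_of_pos (by linarith : 0 < s)] at h10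
      have h11 : 0 ≤ |f.divX.eval s| := abs_nonneg _
      nlinarith)
  rw [h1 t, abs_mul]
  refine mul_le_mul_of_nonneg_right (h3.trans (le_of_eq ?_)) (abs_nonneg _)
  unfold cL
  have : (2 / (1 / (2 * ((D : ℝ) + 1))) : ℝ) = 4 * ((D : ℝ) + 1) := by
    field_simp
    ring
  rw [this]
  ring

/-- Data of a critical context. -/
structure Ctx (W : Type) (N : ℕ) where
  /-- the velocity part of the displacement -/
  P : W → ℝ[X]
  /-- the monomials of the position -/
  Φ : W → Fin N → ℝ[X]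
  /-- the frame -/
  S : ℝ → Fin N → ℝ

variable {W : Type} {N : ℕ}

/-- The displacement of the transversal block. -/
noncomputable def Ctx.disp (c : Ctx W N) (t : ℝ) (w : W) : ℝ :=
  (c.P w).eval t - ∑ j, c.S t j * (c.Φ w j).eval t

/-- The matrix of the differences of the features of `N` pairs. -/
noncomputable def Ctx.M (c : Ctx W N) (u v : Fin N → W) : Matrix (Fin N) (Fin N) ℝ[X] :=
  Matrix.of fun i j => c.Φ (u i) j - c.Φ (v i) j

/-- The numerator of the frame. -/
noncomputable def Ctx.G (c : Ctx W N) (u v : Fin N → W) (j : Fin N) : ℝ[X] :=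
  ∑ i, (c.M u v).adjugate j i * (c.P (u i) - c.P (v i))

/-- The polynomial which approximates the displacement difference. -/
noncomputable def Ctx.R (c : Ctx W N) (u v : Fin N → W) (w w' : W) : ℝ[X] :=
  (c.M u v).det * (c.P w - c.P w') - ∑ j, c.G u v j * (c.Φ w j - c.Φ w' j)

section Deg

variable {d : ℕ}

/-- Degree of a determinant. -/
lemma natDegree_det_le {n : ℕ} (A : Matrix (Fin n) (Fin n) ℝ[X])
    (h : ∀ i j, (A i j).natDegree ≤ d) : A.det.natDegree ≤ n * d := by
  rw [Matrix.det_apply]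
  refine Polynomial.natDegree_sum_le_of_forall_le _ _ fun σ _ => ?_
  refine (Polynomial.natDegree_smul_le _ _).trans ?_
  refine (Polynomial.natDegree_prod_le _ _).trans ?_
  refine (Finset.sum_le_sum fun i _ => h _ _).trans ?_
  rw [Finset.sum_const, Finset.card_univ, Fintype.card_fin, smul_eq_mul]

lemma natDegree_adj_le {n : ℕ} (A : Matrix (Fin n) (Fin n) ℝ[X])
    (h : ∀ i j, (A i j).natDegree ≤ d) (i j : Fin n) : (A.adjugate i j).natDegree ≤ n * d := by
  rw [Matrix.adjugate_apply]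
  refine natDegree_det_le _ fun a b => ?_
  rw [Matrix.updateRow_apply]
  split_ifs
  · rw [Pi.single_apply]
    split_ifs <;> simp
  · exact h _ _

end Deg

/-- Absolute value of a determinant. -/
lemma abs_det_le {n : ℕ} (A : Matrix (Fin n) (Fin n) ℝ) {x : ℝ} (h : ∀ i j, |A i j| ≤ x) :
    |A.det| ≤ n.factorial * x ^ n := by
  have := Matrix.det_le (abv := AbsoluteValue.abs) (A := A) (x := x) h
  simpa [Fintype.card_fin] using this

lemma eval_det {n : ℕ} (A : Matrix (Fin n) (Fin n) ℝ[X]) (t : ℝ) :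
    A.det.eval t = (A.map (Polynomial.eval t)).det := by
  have := RingHom.map_det (Polynomial.evalRingHom t) A
  simpa [RingHom.mapMatrix_apply] using this

lemma eval_adj {n : ℕ} (A : Matrix (Fin n) (Fin n) ℝ[X]) (t : ℝ) (i j : Fin n) :
    (A.adjugate i j).eval t = (A.map (Polynomial.eval t)).adjugate i j := by
  have h1 := RingHom.map_adjugate (Polynomial.evalRingHom t) A
  have h2 := congrFun (congrFun h1 i) j
  simpa [RingHom.mapMatrix_apply] using h2

lemma abs_adj_le {n : ℕ} (A : Matrix (Fin n) (Fin n) ℝ) {x : ℝ} (hx : 1 ≤ x)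
    (h : ∀ i j, |A i j| ≤ x) (i j : Fin n) : |A.adjugate i j| ≤ n.factorial * x ^ n := by
  rw [Matrix.adjugate_apply]
  refine abs_det_le _ fun a b => ?_
  rw [Matrix.updateRow_apply]
  split_ifs
  · rw [Pi.single_apply]
    split_ifs
    · rw [abs_one]; exact hx
    · rw [abs_zero]; linarith
  · exact h _ _

/-- The bounds of a context. -/
structure Ctx.Bdd (c : Ctx W N) (d : ℕ) (B : ℝ) : Prop where
  one_le : 1 ≤ B
  degP : ∀ w, (c.P w).natDegree ≤ d
  zero : ∀ w, (c.P w).eval 0 = 0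
  bdP : ∀ w t, |t| ≤ 1 → |(c.P w).eval t| ≤ B
  degΦ : ∀ w j, (c.Φ w j).natDegree ≤ d
  bdΦ : ∀ w j t, |t| ≤ 1 → |(c.Φ w j).eval t| ≤ B

/-- The bound of the determinants. -/
noncomputable def dE (N : ℕ) (B : ℝ) : ℝ := N.factorial * (2 * B) ^ N

lemma one_le_dE {B : ℝ} (hB : 1 ≤ B) : 1 ≤ dE N B := by
  unfold dE
  have h1 : (1 : ℝ) ≤ N.factorial := by exact_mod_cast Nat.succ_le_of_lt N.factorial_pos
  have h2 : (1 : ℝ) ≤ (2 * B) ^ N := one_le_pow₀ (by linarith)
  nlinarith

section Core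

variable {c : Ctx W N} {d : ℕ} {B : ℝ} {u v : Fin N → W}

lemma Ctx.M_le (hc : c.Bdd d B) {t : ℝ} (ht : |t| ≤ 1) (i j : Fin N) :
    |((c.M u v).map (Polynomial.eval t)) i j| ≤ 2 * B := by
  simp only [Ctx.M, Matrix.map_apply, Matrix.of_apply, Polynomial.eval_sub]
  refine (abs_sub _ _).trans ?_
  have a1 := hc.bdΦ (u i) j t ht
  have a2 := hc.bdΦ (v i) j t ht
  linarith

lemma Ctx.det_bd (hc : c.Bdd d B) {t : ℝ} (ht : |t| ≤ 1) :
    |(c.M u v).det.eval t| ≤ dE N B := by
  rw [eval_det]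
  exact abs_det_le _ (fun i j => Ctx.M_le hc ht i j)

lemma Ctx.adj_bd (hc : c.Bdd d B) {t : ℝ} (ht : |t| ≤ 1) (i j : Fin N) :
    |((c.M u v).adjugate i j).eval t| ≤ dE N B := by
  rw [eval_adj]
  exact abs_adj_le _ (by linarith [hc.one_le]) (fun i j => Ctx.M_le hc ht i j) i j

lemma Ctx.degM (hc : c.Bdd d B) (i j : Fin N) : ((c.M u v) i j).natDegree ≤ d := by
  simp only [Ctx.M, Matrix.of_apply]
  refine (Polynomial.natDegree_sub_le _ _).trans ?_
  exact max_le (hc.degΦ _ _) (hc.degΦ _ _)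

lemma Ctx.degG (hc : c.Bdd d B) (j : Fin N) : (c.G u v j).natDegree ≤ (N + 1) * d := by
  unfold Ctx.G
  refine Polynomial.natDegree_sum_le_of_forall_le _ _ fun i _ => ?_
  refine Polynomial.natDegree_mul_le.trans ?_
  have h1 := natDegree_adj_le (c.M u v) (fun i j => Ctx.degM hc i j) j i
  have h2 : (c.P (u i) - c.P (v i)).natDegree ≤ d :=
    (Polynomial.natDegree_sub_le _ _).trans (max_le (hc.degP _) (hc.degP _))
  calc _ ≤ N * d + d := Nat.add_le_add h1 h2
    _ = (N + 1) * d := by ring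

lemma Ctx.degR (hc : c.Bdd d B) (w w' : W) : (c.R u v w w').natDegree ≤ (N + 2) * d := by
  unfold Ctx.R
  refine (Polynomial.natDegree_sub_le _ _).trans (max_le ?_ ?_)
  · refine Polynomial.natDegree_mul_le.trans ?_
    have h1 := natDegree_det_le (c.M u v) (fun i j => Ctx.degM hc i j)
    have h2 : (c.P w - c.P w').natDegree ≤ d :=
      (Polynomial.natDegree_sub_le _ _).trans (max_le (hc.degP _) (hc.degP _))
    calc _ ≤ N * d + d := Nat.add_le_add h1 h2
      _ ≤ (N + 2) * d := by ring_nf; omega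
  · refine Polynomial.natDegree_sum_le_of_forall_le _ _ fun j _ => ?_
    refine Polynomial.natDegree_mul_le.trans ?_
    have h1 := Ctx.degG (u := u) (v := v) hc j
    have h2 : (c.Φ w j - c.Φ w' j).natDegree ≤ d :=
      (Polynomial.natDegree_sub_le _ _).trans (max_le (hc.degΦ _ _) (hc.degΦ _ _))
    calc _ ≤ (N + 1) * d + d := Nat.add_le_add h1 h2
      _ = (N + 2) * d := by ring

lemma Ctx.G_zero (hc : c.Bdd d B) (j : Fin N) : (c.G u v j).eval 0 = 0 := by
  unfold Ctx.G
  rw [Polynomial.eval_finsetSum]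
  refine Finset.sum_eq_zero fun i _ => ?_
  rw [Polynomial.eval_mul, Polynomial.eval_sub, hc.zero, hc.zero]
  ring

lemma Ctx.G_bd (hc : c.Bdd d B) {t : ℝ} (ht : |t| ≤ 1) (j : Fin N) :
    |(c.G u v j).eval t| ≤ N * (dE N B * (2 * B)) := by
  unfold Ctx.G
  rw [Polynomial.eval_finsetSum]
  refine (Finset.abs_sum_le_sum_abs _ _).trans ?_
  have h1 : ∀ i : Fin N, |((c.M u v).adjugate j i * (c.P (u i) - c.P (v i))).eval t| ≤
      dE N B * (2 * B) := by
    intro i
    rw [Polynomial.eval_mul, Polynomial.eval_sub, abs_mul]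
    refine mul_le_mul (Ctx.adj_bd hc ht j i) ?_ (abs_nonneg _) ?_
    · refine (abs_sub _ _).trans ?_
      have a1 := hc.bdP (u i) t ht
      have a2 := hc.bdP (v i) t ht
      linarith
    · linarith [one_le_dE (N := N) hc.one_le]
  refine (Finset.sum_le_sum fun i _ => h1 i).trans (le_of_eq ?_)
  rw [Finset.sum_const, Finset.card_univ, Fintype.card_fin, nsmul_eq_mul]

/-- Cramer: the frame is `G / det` up to the errors of the pairs. -/
lemma Ctx.cramer (hc : c.Bdd d B) {t η : ℝ} (ht : |t| ≤ 1)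
    (hp : ∀ i, |c.disp t (u i) - c.disp t (v i)| ≤ η) (j : Fin N) :
    |(c.M u v).det.eval t * c.S t j - (c.G u v j).eval t| ≤ N * (dE N B * η) := by
  set A : Matrix (Fin N) (Fin N) ℝ := (c.M u v).map (Polynomial.eval t) with hA
  have h1 : ∀ i, c.disp t (u i) - c.disp t (v i) =
      ((c.P (u i)).eval t - (c.P (v i)).eval t) - (A.mulVec (c.S t)) i := by
    intro i
    unfold Ctx.disp
    have : (A.mulVec (c.S t)) i = ∑ j, c.S t j * (c.Φ (u i) j).eval t -
        ∑ j, c.S t j * (c.Φ (v i) j).eval t := by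
      rw [← Finset.sum_sub_distrib, Matrix.mulVec, dotProduct]
      refine Finset.sum_congr rfl fun j _ => ?_
      simp only [hA, Ctx.M, Matrix.map_apply, Matrix.of_apply, Polynomial.eval_sub]
      ring
    rw [this]
    ring
  have h2 : A.det * c.S t j = ∑ i, A.adjugate j i * (A.mulVec (c.S t)) i := by
    have h3 : (A.adjugate.mulVec (A.mulVec (c.S t))) j = A.det * c.S t j := by
      rw [Matrix.mulVec_mulVec, Matrix.adjugate_mul, Matrix.smul_mulVec, Matrix.one_mulVec,
        Pi.smul_apply, smul_eq_mul]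
    rw [← h3]
    rfl
  have h4 : (c.G u v j).eval t = ∑ i, A.adjugate j i *
      ((c.P (u i)).eval t - (c.P (v i)).eval t) := by
    unfold Ctx.G
    rw [Polynomial.eval_finsetSum]
    refine Finset.sum_congr rfl fun i _ => ?_
    rw [Polynomial.eval_mul, Polynomial.eval_sub, eval_adj]
  rw [eval_det, ← hA, h2, h4, ← Finset.sum_sub_distrib]
  refine (Finset.abs_sum_le_sum_abs _ _).trans ?_
  have h5 : ∀ i : Fin N, |A.adjugate j i * (A.mulVec (c.S t)) i -
      A.adjugate j i * ((c.P (u i)).eval t - (c.P (v i)).eval t)| ≤ dE N B * η := by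
    intro i
    have : A.adjugate j i * (A.mulVec (c.S t)) i -
        A.adjugate j i * ((c.P (u i)).eval t - (c.P (v i)).eval t) =
        -(A.adjugate j i * (c.disp t (u i) - c.disp t (v i))) := by
      rw [h1 i]
      ring
    rw [this, abs_neg, abs_mul]
    refine mul_le_mul ?_ (hp i) (abs_nonneg _) (by linarith [one_le_dE (N := N) hc.one_le])
    have := Ctx.adj_bd (u := u) (v := v) hc ht j i
    rwa [eval_adj, ← hA] at this
  refine (Finset.sum_le_sum fun i _ => h5 i).trans (le_of_eq ?_)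
  rw [Finset.sum_const, Finset.card_univ, Fintype.card_fin, nsmul_eq_mul]

/-- The polynomial `R` approximates the displacement difference. -/
lemma Ctx.R_approx (hc : c.Bdd d B) {t η : ℝ} (ht : |t| ≤ 1) (hη : 0 ≤ η)
    (hp : ∀ i, |c.disp t (u i) - c.disp t (v i)| ≤ η) (w w' : W) :
    |(c.M u v).det.eval t * (c.disp t w - c.disp t w') - (c.R u v w w').eval t| ≤
      N * (N * (dE N B * η) * (2 * B)) := by
  have h1 : (c.M u v).det.eval t * (c.disp t w - c.disp t w') - (c.R u v w w').eval t =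
      -∑ j, ((c.M u v).det.eval t * c.S t j - (c.G u v j).eval t) *
        ((c.Φ w j).eval t - (c.Φ w' j).eval t) := by
    unfold Ctx.disp Ctx.R
    simp only [Polynomial.eval_sub, Polynomial.eval_mul, Polynomial.eval_finsetSum]
    have e1 : (∑ j, ((c.M u v).det.eval t * c.S t j - (c.G u v j).eval t) *
        ((c.Φ w j).eval t - (c.Φ w' j).eval t)) =
        (c.M u v).det.eval t * (∑ j, c.S t j * (c.Φ w j).eval t) -
        (c.M u v).det.eval t * (∑ j, c.S t j * (c.Φ w' j).eval t) -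
        ∑ j, (c.G u v j).eval t * ((c.Φ w j).eval t - (c.Φ w' j).eval t) := by
      rw [Finset.mul_sum, Finset.mul_sum, ← Finset.sum_sub_distrib, ← Finset.sum_sub_distrib]
      refine Finset.sum_congr rfl fun j _ => ?_
      ring
    rw [e1]
    ring
  rw [h1, abs_neg]
  refine (Finset.abs_sum_le_sum_abs _ _).trans ?_
  have h2 : ∀ j : Fin N, |((c.M u v).det.eval t * c.S t j - (c.G u v j).eval t) *
        ((c.Φ w j).eval t - (c.Φ w' j).eval t)| ≤ N * (dE N B * η) * (2 * B) := by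
    intro j
    rw [abs_mul]
    have a0 := one_le_dE (N := N) hc.one_le
    refine mul_le_mul (Ctx.cramer hc ht hp j) ?_ (abs_nonneg _) (by positivity)
    refine (abs_sub _ _).trans ?_
    have a1 := hc.bdΦ w j t ht
    have a2 := hc.bdΦ w' j t ht
    linarith
  refine (Finset.sum_le_sum fun j _ => h2 j).trans (le_of_eq ?_)
  rw [Finset.sum_const, Finset.card_univ, Fintype.card_fin, nsmul_eq_mul]

/-- The frame and the displacements are small near the base time. -/
lemma Ctx.small (hc : c.Bdd d B) {D : ℕ} (hD : (N + 1) * d ≤ D) {κ s₀ t₂ η : ℝ} (hκ : 0 < κ)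
    (hκ1 : κ ≤ 1) (hs0 : 0 < s₀) (hs1 : s₀ ≤ 1) (hη : 0 ≤ η) (ht2 : 0 ≤ t₂)
    (hdet : κ ≤ |(c.M u v).det.eval 0|)
    (hsm : 8 * ((N : ℝ) + 1) ^ 2 * (cL D + 1) * dE N B * B ^ 2 * (t₂ + η) ≤ κ * s₀)
    {t : ℝ} (ht : |t| ≤ 1) (htt : |t| ≤ t₂)
    (hp : ∀ i, |c.disp t (u i) - c.disp t (v i)| ≤ η) (w : W) :
    |c.disp t w| ≤ s₀ / 2 := by
  have hB := hc.one_le
  have hE := one_le_dE (N := N) hB
  have hc0 := cL_pos D
  set E : ℝ := dE N B with hEd
  set L : ℝ := cL D with hL
  have hN0 : (0 : ℝ) ≤ N := Nat.cast_nonneg _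
  -- the determinant
  have hdl := poly_lip D (c.M u v).det ((natDegree_det_le (c.M u v)
    (fun i j => Ctx.degM hc i j)).trans (le_trans (by nlinarith) hD)) E
    (fun t ht => Ctx.det_bd hc ht) t ht
  have hN1 : (1 : ℝ) ≤ ((N : ℝ) + 1) ^ 2 := by nlinarith
  have hN2 : (N : ℝ) ^ 2 ≤ ((N : ℝ) + 1) ^ 2 := by nlinarith
  have hB2 : 1 ≤ B ^ 2 := by nlinarith
  have hBB : B ≤ B ^ 2 := by nlinarith
  have hEB : 1 ≤ E * B ^ 2 := by nlinarith
  have hLE : L * E * t₂ ≤ κ / 2 := by
    have h1 : L * E * t₂ ≤ ((N : ℝ) + 1) ^ 2 * (L + 1) * E * B ^ 2 * t₂ := by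
      have a1 : L * E ≤ (L + 1) * E := by nlinarith
      have a2 : (L + 1) * E ≤ ((N : ℝ) + 1) ^ 2 * ((L + 1) * E) := by
        nlinarith [mul_pos (by linarith : 0 < L + 1) (by linarith : 0 < E)]
      have a3 : ((N : ℝ) + 1) ^ 2 * ((L + 1) * E) ≤
          ((N : ℝ) + 1) ^ 2 * ((L + 1) * E) * B ^ 2 := by
        have : 0 ≤ ((N : ℝ) + 1) ^ 2 * ((L + 1) * E) := by positivity
        nlinarith
      have := mul_le_mul_of_nonneg_right (a1.trans (a2.trans a3)) ht2
      calc L * E * t₂ ≤ ((N : ℝ) + 1) ^ 2 * ((L + 1) * E) * B ^ 2 * t₂ := this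
        _ = _ := by ring
    have h2 : 0 ≤ ((N : ℝ) + 1) ^ 2 * (L + 1) * E * B ^ 2 * t₂ := by positivity
    have h3 : 0 ≤ ((N : ℝ) + 1) ^ 2 * (L + 1) * E * B ^ 2 * η := by positivity
    have h4 : κ * s₀ ≤ κ := by nlinarith
    nlinarith
  have hdt : κ / 2 ≤ |(c.M u v).det.eval t| := by
    have h1 : |(c.M u v).det.eval 0| - |(c.M u v).det.eval t| ≤
        |(c.M u v).det.eval t - (c.M u v).det.eval 0| := by
      rw [abs_sub_comm]
      exact abs_sub_abs_le_abs_sub _ _
    have h2 : L * E * |t| ≤ L * E * t₂ := mul_le_mul_of_nonneg_left htt (by positivity)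
    linarith
  -- the frame
  have hS : ∀ j, κ / 2 * |c.S t j| ≤ L * (N * (E * (2 * B))) * t₂ + N * (E * η) := by
    intro j
    have h1 := Ctx.cramer hc ht hp j
    have h2 := poly_lip D (c.G u v j) ((Ctx.degG hc j).trans hD) (N * (E * (2 * B)))
      (fun t ht => Ctx.G_bd hc ht j) t ht
    rw [Ctx.G_zero hc, sub_zero] at h2
    have h3 : L * (N * (E * (2 * B))) * |t| ≤ L * (N * (E * (2 * B))) * t₂ :=
      mul_le_mul_of_nonneg_left htt (by positivity)
    have h4 : |(c.M u v).det.eval t| * |c.S t j| ≤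
        L * (N * (E * (2 * B))) * t₂ + N * (E * η) := by
      rw [← abs_mul]
      have h5 : (c.M u v).det.eval t * c.S t j = ((c.M u v).det.eval t * c.S t j -
        (c.G u v j).eval t) + (c.G u v j).eval t := by ring
      rw [h5]
      refine (abs_add_le _ _).trans ?_
      linarith
    exact (mul_le_mul_of_nonneg_right hdt (abs_nonneg _)).trans h4
  have hP := poly_lip D (c.P w) ((hc.degP w).trans (le_trans (by nlinarith) hD)) B
    (hc.bdP w) t ht
  rw [hc.zero, sub_zero] at hP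
  have hP' : |(c.P w).eval t| ≤ L * B * t₂ :=
    hP.trans (mul_le_mul_of_nonneg_left htt (by positivity))
  have hsum : |∑ j, c.S t j * (c.Φ w j).eval t| ≤
      N * ((2 / κ) * (L * (N * (E * (2 * B))) * t₂ + N * (E * η)) * B) := by
    refine (Finset.abs_sum_le_sum_abs _ _).trans ?_
    have h1 : ∀ j : Fin N, |c.S t j * (c.Φ w j).eval t| ≤
        (2 / κ) * (L * (N * (E * (2 * B))) * t₂ + N * (E * η)) * B := by
      intro j
      rw [abs_mul]
      refine mul_le_mul ?_ (hc.bdΦ w j t ht) (abs_nonneg _) (by positivity)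
      have h2 := hS j
      have h3 : |c.S t j| = (2 / κ) * (κ / 2 * |c.S t j|) := by field_simp
      rw [h3]
      exact mul_le_mul_of_nonneg_left h2 (by positivity)
    refine (Finset.sum_le_sum fun j _ => h1 j).trans (le_of_eq ?_)
    rw [Finset.sum_const, Finset.card_univ, Fintype.card_fin, nsmul_eq_mul]
  have hdisp : |c.disp t w| ≤ L * B * t₂ +
      N * ((2 / κ) * (L * (N * (E * (2 * B))) * t₂ + N * (E * η)) * B) := by
    unfold Ctx.disp
    refine (abs_sub _ _).trans (add_le_add hP' hsum)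
  refine hdisp.trans ?_
  have key : κ * (L * B * t₂ +
      N * ((2 / κ) * (L * (N * (E * (2 * B))) * t₂ + N * (E * η)) * B)) ≤ κ * (s₀ / 2) := by
    have e1 : κ * (L * B * t₂ +
        N * ((2 / κ) * (L * (N * (E * (2 * B))) * t₂ + N * (E * η)) * B)) =
        κ * (L * B * t₂) + (4 * (N : ℝ) ^ 2 * L * E * B ^ 2 * t₂ +
          2 * (N : ℝ) ^ 2 * E * B * η) := by
      field_simp
      ring
    rw [e1]
    have a1 : κ * (L * B * t₂) ≤ L * E * B ^ 2 * t₂ := by
      have b1 : κ * (L * B * t₂) ≤ 1 * (L * B * t₂) :=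
        mul_le_mul_of_nonneg_right hκ1 (by positivity)
      have b2 : L * B * t₂ ≤ L * E * B ^ 2 * t₂ := by
        refine mul_le_mul_of_nonneg_right ?_ ht2
        have : B ≤ E * B ^ 2 := by nlinarith
        calc L * B ≤ L * (E * B ^ 2) := mul_le_mul_of_nonneg_left this hc0.le
          _ = _ := by ring
      linarith
    have a2 : L * E * B ^ 2 * t₂ + 4 * (N : ℝ) ^ 2 * L * E * B ^ 2 * t₂ ≤
        4 * ((N : ℝ) + 1) ^ 2 * (L + 1) * E * B ^ 2 * t₂ := by
      have b1 : 0 ≤ L * E * B ^ 2 * t₂ := by positivity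
      have b2 : 0 ≤ E * B ^ 2 * t₂ := by positivity
      have b3 : (1 + 4 * (N : ℝ) ^ 2) ≤ 4 * ((N : ℝ) + 1) ^ 2 := by nlinarith
      have b4 : (1 + 4 * (N : ℝ) ^ 2) * (L * E * B ^ 2 * t₂) ≤
          4 * ((N : ℝ) + 1) ^ 2 * (L * E * B ^ 2 * t₂) := mul_le_mul_of_nonneg_right b3 b1
      have b5 : 0 ≤ 4 * ((N : ℝ) + 1) ^ 2 * (E * B ^ 2 * t₂) := by positivity
      nlinarith
    have a3 : 2 * (N : ℝ) ^ 2 * E * B * η ≤
        4 * ((N : ℝ) + 1) ^ 2 * (L + 1) * E * B ^ 2 * η := by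
      refine mul_le_mul_of_nonneg_right ?_ hη
      have b1 : (N : ℝ) ^ 2 * (E * B) ≤ ((N : ℝ) + 1) ^ 2 * (E * B ^ 2) := by
        refine mul_le_mul hN2 ?_ (by positivity) (by positivity)
        exact mul_le_mul_of_nonneg_left hBB (by linarith)
      have b2 : 0 ≤ ((N : ℝ) + 1) ^ 2 * (E * B ^ 2) := by positivity
      have b3 : 0 ≤ L * (((N : ℝ) + 1) ^ 2 * (E * B ^ 2)) := by positivity
      nlinarith
    have a4 : 8 * ((N : ℝ) + 1) ^ 2 * (L + 1) * E * B ^ 2 * (t₂ + η) =
        2 * (4 * ((N : ℝ) + 1) ^ 2 * (L + 1) * E * B ^ 2 * t₂ +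
          4 * ((N : ℝ) + 1) ^ 2 * (L + 1) * E * B ^ 2 * η) := by ring
    rw [a4] at hsm
    linarith
  exact le_of_mul_le_mul_left key hκ

end Core

/-- **The critical step, core.** `W` the typical values of the blocks, `T` the typical times,
`disp t w` the displacement of the transversal block. Hypotheses: displacement differences which
are at most `s₀` are at most `η`; `N` pairs of values with displacement differences at most `s₀`
at all times, whose feature differences are independent at the base time (determinant at least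
`κ`); `(N + 2) d + 1` typical times in `[-t₂, t₂]` with gaps at least `ζ`; `t₂` and `η` are small
compared with `κ s₀`. Conclusions: the frame is a rational function of the time up to `O(η)`, and
all displacement differences are `O(η)`. -/
theorem rat_thm {W : Type} {N d D : ℕ} (hDd : D = (N + 2) * d) {c : Ctx W N} {B : ℝ} (hc : c.Bdd d B) {u v : Fin N → W}
    {T : Set ℝ} {κ s₀ ζ t₂ η : ℝ} (hT : ∀ t ∈ T, |t| ≤ 1) (hκ : 0 < κ) (hκ1 : κ ≤ 1)
    (hs0 : 0 < s₀) (hs1 : s₀ ≤ 1) (hζ : 0 < ζ) (hζ1 : ζ ≤ 1) (hη : 0 ≤ η) (ht2 : 0 ≤ t₂)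
    (hgap : ∀ t ∈ T, ∀ w w', |c.disp t w - c.disp t w'| ≤ s₀ →
      |c.disp t w - c.disp t w'| ≤ η)
    (hpair : ∀ t ∈ T, ∀ i, |c.disp t (u i) - c.disp t (v i)| ≤ s₀)
    (hdet : κ ≤ |(c.M u v).det.eval 0|)
    (τ : Fin (D + 1) → ℝ) (hτ : ∀ i, τ i ∈ T) (hτ2 : ∀ i, |τ i| ≤ t₂)
    (hτ3 : ∀ i j, i ≠ j → ζ ≤ |τ i - τ j|)
    (hsm : 8 * ((N : ℝ) + 1) ^ 2 * (cL D + 1) * dE N B * B ^ 2 * (t₂ + η) ≤
      κ * s₀) :
    (∀ t ∈ T, ∀ j, |(c.M u v).det.eval t * c.S t j - (c.G u v j).eval t| ≤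
      N * (dE N B * η)) ∧
    (∀ t ∈ T, ∀ w w', |(c.M u v).det.eval t| * |c.disp t w - c.disp t w'| ≤
      6 * ((D : ℝ) + 1) * ((N : ℝ) + 1) ^ 2 * dE N B * B *
        (2 / ζ) ^ D * η) := by
  have hB := hc.one_le
  have hE := one_le_dE (N := N) hB
  have hp : ∀ t ∈ T, ∀ i, |c.disp t (u i) - c.disp t (v i)| ≤ η :=
    fun t ht i => hgap t ht _ _ (hpair t ht i)
  refine ⟨fun t ht j => Ctx.cramer hc (hT t ht) (hp t ht) j, fun t ht w w' => ?_⟩
  set E : ℝ := dE N B with hEd
  have hN0 : (0 : ℝ) ≤ N := Nat.cast_nonneg _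
  set E2 : ℝ := N * (N * (E * η) * (2 * B)) with hE2
  have hE20 : 0 ≤ E2 := by positivity
  -- at the nodes
  have hnode : ∀ i, |(c.R u v w w').eval (τ i)| ≤ E * η + E2 := by
    intro i
    have hti := hτ i
    have h1 := Ctx.R_approx hc (hT _ hti) hη (hp _ hti) w w'
    have h2 : |c.disp (τ i) w - c.disp (τ i) w'| ≤ η := by
      refine hgap _ hti w w' ?_
      have a1 := Ctx.small hc (D := D) (by rw [hDd]; nlinarith) hκ hκ1 hs0 hs1 hη ht2 hdet hsm
        (hT _ hti) (hτ2 i) (hp _ hti) w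
      have a2 := Ctx.small hc (D := D) (by rw [hDd]; nlinarith) hκ hκ1 hs0 hs1 hη ht2 hdet hsm
        (hT _ hti) (hτ2 i) (hp _ hti) w'
      refine (abs_sub _ _).trans ?_
      linarith
    have h3 : |(c.M u v).det.eval (τ i) * (c.disp (τ i) w - c.disp (τ i) w')| ≤ E * η := by
      rw [abs_mul]
      exact mul_le_mul (Ctx.det_bd hc (hT _ hti)) h2 (abs_nonneg _) (by linarith)
    have h4 : (c.R u v w w').eval (τ i) =
        (c.M u v).det.eval (τ i) * (c.disp (τ i) w - c.disp (τ i) w') -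
        ((c.M u v).det.eval (τ i) * (c.disp (τ i) w - c.disp (τ i) w') -
          (c.R u v w w').eval (τ i)) := by ring
    rw [h4]
    refine (abs_sub _ _).trans ?_
    linarith
  have ht1 := hT t ht
  have hlag := Pool.KAL.RMG.lagrange_bound D (c.R u v w w') τ t 2 ζ (E * η + E2)
    ((Ctx.degR hc w w').trans hDd.ge) hζ hτ3 (by
      intro i
      refine (abs_sub _ _).trans ?_
      linarith [hT _ (hτ i)]) hnode
  have h1 := Ctx.R_approx hc ht1 hη (hp t ht) w w'
  have h2 : |(c.M u v).det.eval t| * |c.disp t w - c.disp t w'| ≤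
      ((D : ℝ) + 1) * (2 / ζ) ^ D * (E * η + E2) + E2 := by
    rw [← abs_mul]
    have h3 : (c.M u v).det.eval t * (c.disp t w - c.disp t w') =
        ((c.M u v).det.eval t * (c.disp t w - c.disp t w') - (c.R u v w w').eval t) +
        (c.R u v w w').eval t := by ring
    rw [h3]
    refine (abs_add_le _ _).trans ?_
    linarith
  refine h2.trans ?_
  have hz : (1 : ℝ) ≤ (2 / ζ) ^ D := one_le_pow₀ (by rw [le_div_iff₀ hζ]; linarith)
  have hD1 : (1 : ℝ) ≤ (D : ℝ) + 1 := by linarith [(Nat.cast_nonneg D : (0 : ℝ) ≤ D)]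
  have hX : (1 : ℝ) ≤ ((D : ℝ) + 1) * (2 / ζ) ^ D := by nlinarith
  have h5 : E2 ≤ ((D : ℝ) + 1) * (2 / ζ) ^ D * E2 := by nlinarith
  have h6 : E * η + 2 * E2 ≤ 6 * ((N : ℝ) + 1) ^ 2 * E * B * η := by
    have a1 : 2 * E2 = 4 * (N : ℝ) ^ 2 * (E * B * η) := by rw [hE2]; ring
    have a2 : E * η ≤ E * B * η := by
      have : E * 1 ≤ E * B := mul_le_mul_of_nonneg_left hB (by linarith)
      calc E * η = E * 1 * η := by ring
        _ ≤ E * B * η := mul_le_mul_of_nonneg_right this hη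
    have a3 : 0 ≤ E * B * η := by positivity
    have a4 : 1 + 4 * (N : ℝ) ^ 2 ≤ 6 * ((N : ℝ) + 1) ^ 2 := by nlinarith
    have a5 := mul_le_mul_of_nonneg_right a4 a3
    rw [a1]
    linarith
  calc ((D : ℝ) + 1) * (2 / ζ) ^ D * (E * η + E2) + E2
      ≤ ((D : ℝ) + 1) * (2 / ζ) ^ D * (E * η + 2 * E2) := by linarith
    _ ≤ ((D : ℝ) + 1) * (2 / ζ) ^ D * (6 * ((N : ℝ) + 1) ^ 2 * E * B * η) :=
        mul_le_mul_of_nonneg_left h6 (by linarith)
    _ = _ := by push_cast; ring

end Pool.QQ
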