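import Pool.Agent.H7.QQ.RAT

/-!
# Rational frames with Hessian at a critical context: pigeonhole

Two dimensional positions `y`, velocity blocks `om`, transversal velocity blocks `be`, `ga` and
label block `r`; frames `s` (two coordinates) and Hessians (three coordinates).
-/

set_option autoImplicit false

namespace Pool.QQ

open Finset Real Polynomial

/-- Pigeonhole for bounded vectors. -/
lemma pigeon {r M : ℕ} (z : Fin M → Fin r → ℝ) (hz : ∀ m i, |z m i| ≤ 1) {δ : ℝ} (hδ : 0 < δ)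
    (hM : (2 / δ + 2) ^ r < (M : ℝ)) :
    ∃ m m' : Fin M, m ≠ m' ∧ ∀ i, |z m i - z m' i| ≤ δ := by
  classical
  set f : Fin M → Fin r → ℤ := fun m i => ⌊(z m i + 1) / δ⌋ with hf
  set S : Finset (Fin r → ℤ) := Fintype.piFinset (fun _ => Finset.Icc (0 : ℤ) ⌊2 / δ⌋) with hS
  have hmem : ∀ m ∈ (Finset.univ : Finset (Fin M)), f m ∈ S := by
    intro m _
    rw [hS, Fintype.mem_piFinset]
    intro i
    have h1 := abs_le.1 (hz m i)
    rw [Finset.mem_Icc]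
    constructor
    · rw [hf]
      refine Int.floor_nonneg.2 (div_nonneg ?_ hδ.le)
      linarith
    · rw [hf]
      refine Int.floor_le_floor ?_
      refine div_le_div_of_nonneg_right ?_ hδ.le
      linarith
  have hcard : S.card < (Finset.univ : Finset (Fin M)).card := by
    rw [hS, Fintype.card_piFinset, Finset.prod_const, Finset.card_univ, Fintype.card_fin,
      Finset.card_univ, Fintype.card_fin, Int.card_Icc]
    have h1 : (((⌊2 / δ⌋ + 1 - 0).toNat : ℕ) : ℝ) ≤ 2 / δ + 2 := by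
      have h2 : (0 : ℤ) ≤ ⌊2 / δ⌋ := Int.floor_nonneg.2 (by positivity)
      have h3 : (((⌊2 / δ⌋ + 1 - 0).toNat : ℕ) : ℤ) = ⌊2 / δ⌋ + 1 := by
        rw [Int.toNat_of_nonneg (by omega)]
        ring
      have h4 : (((⌊2 / δ⌋ + 1 - 0).toNat : ℕ) : ℝ) = ((⌊2 / δ⌋ : ℤ) : ℝ) + 1 := by
        exact_mod_cast congrArg (Int.cast (R := ℝ)) h3
      rw [h4]
      linarith [Int.floor_le (2 / δ)]
    have h5 : ((((⌊2 / δ⌋ + 1 - 0).toNat : ℕ) : ℝ)) ^ r ≤ (2 / δ + 2) ^ r :=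
      pow_le_pow_left₀ (Nat.cast_nonneg _) h1 r
    have h6 := lt_of_le_of_lt h5 hM
    exact_mod_cast h6
  obtain ⟨m, _, m', _, hne, heq⟩ := Finset.exists_ne_map_eq_of_card_lt_of_maps_to hcard hmem
  refine ⟨m, m', hne, fun i => ?_⟩
  have h1 : ⌊(z m i + 1) / δ⌋ = ⌊(z m' i + 1) / δ⌋ := congrFun heq i
  have h2 := Int.abs_sub_lt_one_of_floor_eq_floor h1
  have h3 : (z m i + 1) / δ - (z m' i + 1) / δ = (z m i - z m' i) / δ := by ring
  rw [h3, abs_div, abs_of_pos hδ, div_lt_one hδ] at h2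
  exact h2.le

/-- The values of the blocks. -/
structure QB (W : Type) where
  y : W → Fin 2 → ℝ
  om : W → Fin 2 → ℝ
  be : W → ℝ
  ga : W → ℝ
  r : W → Fin 2 → ℝ

/-- The bounds of the blocks. -/
structure QB.Bd {W : Type} (b : QB W) : Prop where
  y : ∀ w i, |b.y w i| ≤ 1
  om : ∀ w i, |b.om w i| ≤ 1
  be : ∀ w, |b.be w| ≤ 1
  ga : ∀ w, |b.ga w| ≤ 1
  r : ∀ w i, |b.r w i| ≤ 1

/-- The position at the time `t`. -/
noncomputable def QB.yt {W : Type} (b : QB W) (t : ℝ) (w : W) (i : Fin 2) : ℝ :=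
  b.y w i + t * b.om w i

/-- The displacement, with frame `s` and Hessian `h 0, h 1, h 2`. -/
noncomputable def QB.disp {W : Type} (b : QB W) (s : ℝ → Fin 2 → ℝ) (h : ℝ → Fin 3 → ℝ) (t : ℝ)
    (w : W) : ℝ :=
  t * b.be w + t ^ 2 * b.ga w - t * (b.r w 0 * b.yt t w 0 + b.r w 1 * b.yt t w 1) -
    (s t 0 * b.yt t w 0 + s t 1 * b.yt t w 1) -
    (h t 0 * b.yt t w 0 ^ 2 + 2 * h t 1 * (b.yt t w 0 * b.yt t w 1) +
      h t 2 * b.yt t w 1 ^ 2) / 2

/-- The position as a polynomial in the time. -/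
noncomputable def QB.Y {W : Type} (b : QB W) (w : W) (i : Fin 2) : ℝ[X] :=
  C (b.y w i) + C (b.om w i) * X

lemma QB.eval_Y {W : Type} (b : QB W) (t : ℝ) (w : W) (i : Fin 2) :
    (b.Y w i).eval t = b.yt t w i := by
  unfold QB.Y QB.yt
  simp
  ring

/-- The context of the blocks. -/
noncomputable def QB.ctx {W : Type} (b : QB W) (s : ℝ → Fin 2 → ℝ) (h : ℝ → Fin 3 → ℝ) :
    Ctx W 5 where
  P := fun w => C (b.be w) * X + C (b.ga w) * X ^ 2 -
    X * (C (b.r w 0) * b.Y w 0 + C (b.r w 1) * b.Y w 1)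
  Φ := fun w => ![b.Y w 0, b.Y w 1, C (1 / 2) * (b.Y w 0 * b.Y w 0), b.Y w 0 * b.Y w 1,
    C (1 / 2) * (b.Y w 1 * b.Y w 1)]
  S := fun t => ![s t 0, s t 1, h t 0, h t 1, h t 2]

lemma QB.disp_eq {W : Type} (b : QB W) (s : ℝ → Fin 2 → ℝ) (h : ℝ → Fin 3 → ℝ) (t : ℝ)
    (w : W) : (b.ctx s h).disp t w = b.disp s h t w := by
  unfold Ctx.disp QB.ctx QB.disp
  simp [Fin.sum_univ_succ, QB.eval_Y]
  ring

lemma QB.degY {W : Type} (b : QB W) (w : W) (i : Fin 2) : (b.Y w i).natDegree ≤ 1 := by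
  unfold QB.Y
  compute_degree

lemma QB.yt_le {W : Type} {b : QB W} (hb : b.Bd) {t : ℝ} (ht : |t| ≤ 1) (w : W) (i : Fin 2) :
    |b.yt t w i| ≤ 2 := by
  unfold QB.yt
  refine (abs_add_le _ _).trans ?_
  rw [abs_mul]
  have h1 := hb.y w i
  have h2 : |t| * |b.om w i| ≤ 1 * 1 := mul_le_mul ht (hb.om w i) (abs_nonneg _) zero_le_one
  linarith

lemma QB.bdd {W : Type} {b : QB W} (hb : b.Bd) (s : ℝ → Fin 2 → ℝ) (h : ℝ → Fin 3 → ℝ) :
    (b.ctx s h).Bdd 2 8 where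
  one_le := by norm_num
  degP := by
    intro w
    have h1 : (b.ctx s h).P w = C (b.be w) * X + C (b.ga w) * X ^ 2 -
        X * (C (b.r w 0) * (C (b.y w 0) + C (b.om w 0) * X) +
          C (b.r w 1) * (C (b.y w 1) + C (b.om w 1) * X)) := rfl
    rw [h1]
    compute_degree
  zero := by
    intro w
    simp [QB.ctx]
  bdP := by
    intro w t ht
    have h1 : ((b.ctx s h).P w).eval t = t * b.be w + t ^ 2 * b.ga w -
        t * (b.r w 0 * b.yt t w 0 + b.r w 1 * b.yt t w 1) := by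
      simp [QB.ctx, QB.eval_Y]
      ring
    rw [h1]
    have a1 : |t * b.be w| ≤ 1 * 1 := by
      rw [abs_mul]; exact mul_le_mul ht (hb.be w) (abs_nonneg _) zero_le_one
    have a2 : |t ^ 2 * b.ga w| ≤ 1 * 1 := by
      rw [abs_mul, abs_pow]
      exact mul_le_mul (pow_le_one₀ (abs_nonneg _) ht) (hb.ga w) (abs_nonneg _) zero_le_one
    have a3 : ∀ i, |b.r w i * b.yt t w i| ≤ 1 * 2 := fun i => by
      rw [abs_mul]; exact mul_le_mul (hb.r w i) (QB.yt_le hb ht w i) (abs_nonneg _) zero_le_one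
    have a4 : |t * (b.r w 0 * b.yt t w 0 + b.r w 1 * b.yt t w 1)| ≤ 1 * 4 := by
      rw [abs_mul]
      refine mul_le_mul ht ?_ (abs_nonneg _) zero_le_one
      refine (abs_add_le _ _).trans ?_
      linarith [a3 0, a3 1]
    refine (abs_sub _ _).trans ?_
    have a5 := abs_add_le (t * b.be w) (t ^ 2 * b.ga w)
    linarith
  degΦ := by
    intro w j
    have h1 : (b.ctx s h).Φ w = ![b.Y w 0, b.Y w 1, C (1 / 2) * (b.Y w 0 * b.Y w 0),
      b.Y w 0 * b.Y w 1, C (1 / 2) * (b.Y w 1 * b.Y w 1)] := rfl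
    rw [h1]
    have d0 := b.degY w 0
    have d1 := b.degY w 1
    have e : ∀ f g : ℝ[X], f.natDegree ≤ 1 → g.natDegree ≤ 1 → (f * g).natDegree ≤ 2 :=
      fun f g hf hg => Polynomial.natDegree_mul_le.trans (by omega)
    have e' : ∀ f g : ℝ[X], f.natDegree ≤ 1 → g.natDegree ≤ 1 →
        (C (1 / 2) * (f * g)).natDegree ≤ 2 := fun f g hf hg =>
      (Polynomial.natDegree_C_mul_le _ _).trans (e f g hf hg)
    fin_cases j
    · exact d0.trans (by norm_num)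
    · exact d1.trans (by norm_num)
    · exact e' _ _ d0 d0
    · exact e _ _ d0 d1
    · exact e' _ _ d1 d1
  bdΦ := by
    intro w j t ht
    have h1 : (b.ctx s h).Φ w = ![b.Y w 0, b.Y w 1, C (1 / 2) * (b.Y w 0 * b.Y w 0),
      b.Y w 0 * b.Y w 1, C (1 / 2) * (b.Y w 1 * b.Y w 1)] := rfl
    rw [h1]
    have y0 := QB.yt_le hb ht w 0
    have y1 := QB.yt_le hb ht w 1
    have e : ∀ x z : ℝ, |x| ≤ 2 → |z| ≤ 2 → |x * z| ≤ 8 := fun x z hx hz => by
      rw [abs_mul]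
      have := mul_le_mul hx hz (abs_nonneg _) (by norm_num : (0 : ℝ) ≤ 2)
      linarith
    have e' : ∀ x z : ℝ, |x| ≤ 2 → |z| ≤ 2 → |1 / 2 * (x * z)| ≤ 8 := fun x z hx hz => by
      have := e x z hx hz
      rw [abs_mul, abs_of_pos (by norm_num : (0 : ℝ) < 1 / 2)]
      linarith [abs_nonneg (x * z)]
    fin_cases j
    · simp only [Fin.zero_eta, Matrix.cons_val_zero, QB.eval_Y]
      linarith
    · simp only [Fin.mk_one, Matrix.cons_val_one, Matrix.cons_val_zero, QB.eval_Y]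
      linarith
    · simpa [QB.eval_Y] using e' _ _ y0 y0
    · simpa [QB.eval_Y] using e _ _ y0 y1
    · simpa [QB.eval_Y] using e' _ _ y1 y1

/-! ### The five pairs -/

/-- Directions of the five segments. -/
def dirv : Fin 5 → Fin 2 → ℝ := ![![1, 0], ![1, 0], ![1, 0], ![0, 1], ![0, 1]]

/-- Base points of the five segments. -/
noncomputable def bas : Fin 5 → Fin 2 → ℝ :=
  ![![1 / 4, 1 / 4], ![3 / 4, 1 / 4], ![1 / 4, 3 / 4], ![1 / 4, 1 / 4], ![1 / 4, 3 / 4]]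

/-- The row of the feature differences of a pair with difference `v` and middle point `Y`. -/
noncomputable def rowf (v Y : Fin 2 → ℝ) : Fin 5 → ℝ :=
  ![v 0, v 1, v 0 * Y 0, v 0 * Y 1 + v 1 * Y 0, v 1 * Y 1]

/-- The limit matrix. -/
noncomputable def Mst : Matrix (Fin 5) (Fin 5) ℝ := Matrix.of fun i => rowf (dirv i) (bas i)

lemma det_Mst : |Mst.det| = 1 / 8 := by
  have : Mst = !![1, 0, 1 / 4, 1 / 4, 0; 1, 0, 3 / 4, 1 / 4, 0; 1, 0, 1 / 4, 3 / 4, 0;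
      0, 1, 0, 1 / 4, 1 / 4; 0, 1, 0, 1 / 4, 3 / 4] := by
    ext i j
    fin_cases i <;> fin_cases j <;> simp [Mst, rowf, dirv, bas]
  rw [this]
  simp [Matrix.det_succ_row_zero, Fin.sum_univ_succ, Fin.succAbove]
  norm_num

lemma exists_del : ∃ δ₀ : ℝ, 0 < δ₀ ∧ ∀ A : Matrix (Fin 5) (Fin 5) ℝ,
    (∀ i j, |A i j - Mst i j| ≤ δ₀) → 1 / 16 ≤ |A.det| := by
  have hcont : Continuous (fun A : Fin 5 → Fin 5 → ℝ => |(Matrix.of A).det|) := by
    refine Continuous.abs (Continuous.matrix_det ?_)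
    exact continuous_id
  have h1 : ∀ᶠ A in nhds (fun i j => Mst i j), 1 / 16 < |(Matrix.of A).det| := by
    refine (hcont.tendsto _).eventually (lt_mem_nhds ?_)
    have : (Matrix.of fun i j => Mst i j) = Mst := rfl
    rw [this, det_Mst]
    norm_num
  obtain ⟨ε, hε, h2⟩ := Metric.eventually_nhds_iff.1 h1
  refine ⟨ε / 2, by positivity, fun A hA => ?_⟩
  have h3 : dist (fun i j => A i j) (fun i j => Mst i j) < ε := by
    rw [dist_pi_lt_iff hε]
    intro i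
    rw [dist_pi_lt_iff hε]
    intro j
    rw [Real.dist_eq]
    linarith [hA i j]
  have h4 := h2 h3
  have : (Matrix.of fun i j => A i j) = A := rfl
  rw [this] at h4
  exact h4.le

/-- A good pair: the differences of the positions are `h v` up to a small relative error, the
middle point is close to the base point, the other blocks are close. -/
structure QB.Pair {W : Type} (b : QB W) (δ σ : ℝ) (v Y : Fin 2 → ℝ) (w w' : W) : Prop where
  ex : ∃ h : ℝ, σ ≤ |h| ∧ |h| ≤ δ ∧ ∀ l, |b.y w l - b.y w' l - h * v l| ≤ 2 * (δ * σ)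
  mid : ∀ l, |(b.y w l + b.y w' l) / 2 - Y l| ≤ 2 * δ
  om : ∀ l, |b.om w l - b.om w' l| ≤ δ
  be : |b.be w - b.be w'| ≤ δ
  ga : |b.ga w - b.ga w'| ≤ δ
  r : ∀ l, |b.r w l - b.r w' l| ≤ δ

/-- Density of the values of `y` along a segment. -/
def QB.Dense {W : Type} (b : QB W) (M : ℕ) (σ ε : ℝ) (v Y : Fin 2 → ℝ) : Prop :=
  ∀ m : Fin M, ∃ w, ∀ l, |b.y w l - (Y l + (m : ℕ) * σ * v l)| ≤ ε

lemma QB.exists_pair {W : Type} {b : QB W} (hb : b.Bd) {M : ℕ} {δ : ℝ} (hδ : 0 < δ)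
    (hδ1 : δ ≤ 1) (hM : (2 / δ + 2) ^ 6 < (M : ℝ)) {v Y : Fin 2 → ℝ} (hv : ∀ l, |v l| ≤ 1)
    (hd : b.Dense M (δ / M) (δ * (δ / M)) v Y) :
    ∃ w w', b.Pair δ (δ / M) v Y w w' := by
  have hM0 : (0 : ℝ) < M := lt_trans (by positivity) hM
  choose f hf using hd
  obtain ⟨m, m', hne, hz⟩ := pigeon (r := 6) (M := M)
    (fun m => ![b.om (f m) 0, b.om (f m) 1, b.be (f m), b.ga (f m), b.r (f m) 0, b.r (f m) 1])
    (by
      intro m i
      fin_cases i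
      · exact hb.om _ 0
      · exact hb.om _ 1
      · exact hb.be _
      · exact hb.ga _
      · exact hb.r _ 0
      · exact hb.r _ 1) hδ hM
  set σ : ℝ := δ / M with hσ
  have hσ0 : 0 < σ := by positivity
  have hMσ : (M : ℝ) * σ = δ := by rw [hσ]; field_simp
  have hm : ((m : ℕ) : ℝ) ≤ M := by exact_mod_cast m.2.le
  have hm' : ((m' : ℕ) : ℝ) ≤ M := by exact_mod_cast m'.2.le
  have hm0 : (0 : ℝ) ≤ ((m : ℕ) : ℝ) := Nat.cast_nonneg _
  have hm0' : (0 : ℝ) ≤ ((m' : ℕ) : ℝ) := Nat.cast_nonneg _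
  have habs : |((m : ℕ) : ℝ) - ((m' : ℕ) : ℝ)| ≤ M := by
    rw [abs_le]
    constructor <;> linarith
  have habs1 : 1 ≤ |((m : ℕ) : ℝ) - ((m' : ℕ) : ℝ)| := by
    have h5 : (m : ℕ) ≠ (m' : ℕ) := fun h => hne (Fin.ext h)
    have h6 : (1 : ℤ) ≤ |((m : ℕ) : ℤ) - ((m' : ℕ) : ℤ)| := by
      refine Int.one_le_abs ?_
      omega
    exact_mod_cast h6
  have hδσ : δ * σ ≤ δ := by
    have : σ ≤ 1 := by
      rw [hσ, div_le_one hM0]
      have h7 : (1 : ℝ) ≤ (2 / δ + 2) ^ 6 := one_le_pow₀ (by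
        have : 0 < 2 / δ := by positivity
        linarith)
      linarith
    nlinarith
  refine ⟨f m, f m', ⟨⟨(((m : ℕ) : ℝ) - ((m' : ℕ) : ℝ)) * σ, ?_, ?_, ?_⟩, ?_, ?_, ?_, ?_, ?_⟩⟩
  · rw [abs_mul, abs_of_pos hσ0]
    nlinarith
  · rw [abs_mul, abs_of_pos hσ0]
    calc |((m : ℕ) : ℝ) - ((m' : ℕ) : ℝ)| * σ ≤ M * σ :=
          mul_le_mul_of_nonneg_right habs hσ0.le
      _ = δ := hMσ
  · intro l
    have h1 := abs_le.1 (hf m l)
    have h2 := abs_le.1 (hf m' l)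
    rw [abs_le]
    constructor <;> linarith [h1.1, h1.2, h2.1, h2.2]
  · intro l
    have h1 := abs_le.1 (hf m l)
    have h2 := abs_le.1 (hf m' l)
    have h3 : |((m : ℕ) : ℝ) * σ * v l| ≤ δ := by
      rw [abs_mul, abs_mul, abs_of_nonneg hm0, abs_of_pos hσ0]
      calc ((m : ℕ) : ℝ) * σ * |v l| ≤ ((m : ℕ) : ℝ) * σ * 1 :=
            mul_le_mul_of_nonneg_left (hv l) (by positivity)
        _ ≤ M * σ := by rw [mul_one]; exact mul_le_mul_of_nonneg_right hm hσ0.le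
        _ = δ := hMσ
    have h4 : |((m' : ℕ) : ℝ) * σ * v l| ≤ δ := by
      rw [abs_mul, abs_mul, abs_of_nonneg hm0', abs_of_pos hσ0]
      calc ((m' : ℕ) : ℝ) * σ * |v l| ≤ ((m' : ℕ) : ℝ) * σ * 1 :=
            mul_le_mul_of_nonneg_left (hv l) (by positivity)
        _ ≤ M * σ := by rw [mul_one]; exact mul_le_mul_of_nonneg_right hm' hσ0.le
        _ = δ := hMσ
    have h5 := abs_le.1 h3
    have h6 := abs_le.1 h4
    rw [abs_le]
    constructor <;> linarith [h1.1, h1.2, h2.1, h2.2, h5.1, h5.2, h6.1, h6.2]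
  · intro l
    fin_cases l
    · simpa using hz 0
    · simpa using hz 1
  · simpa using hz 2
  · simpa using hz 3
  · intro l
    fin_cases l
    · simpa using hz 4
    · simpa using hz 5

lemma prod_diff {x y x' y' e f a : ℝ} (h1 : |x - x'| ≤ e) (h2 : |y - y'| ≤ f) (hy : |y| ≤ a)
    (hx' : |x'| ≤ a) : |x * y - x' * y'| ≤ (e + f) * a := by
  have h3 : x * y - x' * y' = (x - x') * y + x' * (y - y') := by ring
  have he : 0 ≤ e := (abs_nonneg _).trans h1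
  have hf : 0 ≤ f := (abs_nonneg _).trans h2
  have ha : 0 ≤ a := (abs_nonneg _).trans hy
  rw [h3]
  refine (abs_add_le _ _).trans ?_
  rw [abs_mul, abs_mul]
  have a1 := mul_le_mul h1 hy (abs_nonneg _) he
  have a2 := mul_le_mul hx' h2 (abs_nonneg _) ha
  linarith

lemma QB.Pair.dy {W : Type} {b : QB W} {δ σ : ℝ} {v Y : Fin 2 → ℝ} {w w' : W}
    (h : b.Pair δ σ v Y w w') (hδ : 0 ≤ δ) (hσ1 : σ ≤ 1) (hv : ∀ l, |v l| ≤ 1) (l : Fin 2) :
    |b.y w l - b.y w' l| ≤ 3 * δ := by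
  obtain ⟨c, _, hc2, hc3⟩ := h.ex
  have h1 : |c * v l| ≤ δ := by
    rw [abs_mul]
    calc |c| * |v l| ≤ δ * 1 := mul_le_mul hc2 (hv l) (abs_nonneg _) hδ
      _ = δ := mul_one _
  have h2 : δ * σ ≤ δ := by nlinarith
  have h3 : b.y w l - b.y w' l = (b.y w l - b.y w' l - c * v l) + c * v l := by ring
  rw [h3]
  refine (abs_add_le _ _).trans ?_
  linarith [hc3 l]

lemma QB.Pair.dyt {W : Type} {b : QB W} {δ σ : ℝ} {v Y : Fin 2 → ℝ} {w w' : W}
    (h : b.Pair δ σ v Y w w') (hδ : 0 ≤ δ) (hσ1 : σ ≤ 1) (hv : ∀ l, |v l| ≤ 1) {t : ℝ}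
    (ht : |t| ≤ 1) (l : Fin 2) : |b.yt t w l - b.yt t w' l| ≤ 4 * δ := by
  have h1 := h.dy hδ hσ1 hv l
  have h2 := h.om l
  have h3 : b.yt t w l - b.yt t w' l = (b.y w l - b.y w' l) + t * (b.om w l - b.om w' l) := by
    unfold QB.yt
    ring
  rw [h3]
  refine (abs_add_le _ _).trans ?_
  have h4 : |t * (b.om w l - b.om w' l)| ≤ 1 * δ := by
    rw [abs_mul]
    exact mul_le_mul ht h2 (abs_nonneg _) zero_le_one
  linarith

/-- The displacements of a good pair are close. -/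
lemma QB.Pair.disp {W : Type} {b : QB W} (hb : b.Bd) {δ σ : ℝ} {v Y : Fin 2 → ℝ} {w w' : W}
    (h : b.Pair δ σ v Y w w') (hδ : 0 ≤ δ) (hσ1 : σ ≤ 1) (hv : ∀ l, |v l| ≤ 1) {t C0 : ℝ}
    (ht : |t| ≤ 1) (hC0 : 1 ≤ C0) {s : ℝ → Fin 2 → ℝ} {g : ℝ → Fin 3 → ℝ}
    (hs : ∀ i, |s t i| ≤ C0) (hg : ∀ i, |g t i| ≤ C0) :
    |b.disp s g t w - b.disp s g t w'| ≤ 70 * C0 * δ := by
  set x : Fin 2 → ℝ := b.yt t w with hx
  set x' : Fin 2 → ℝ := b.yt t w' with hx'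
  have hC00 : 0 ≤ C0 := by linarith
  have d0 : ∀ l, |x l - x' l| ≤ 4 * δ := h.dyt hδ hσ1 hv ht
  have bx : ∀ l, |x l| ≤ 2 := QB.yt_le hb ht w
  have bx' : ∀ l, |x' l| ≤ 2 := QB.yt_le hb ht w'
  have e1 : |t * (b.be w - b.be w')| ≤ 1 * δ := by
    rw [abs_mul]; exact mul_le_mul ht h.be (abs_nonneg _) zero_le_one
  have e2 : |t ^ 2 * (b.ga w - b.ga w')| ≤ 1 * δ := by
    rw [abs_mul, abs_pow]
    exact mul_le_mul (pow_le_one₀ (abs_nonneg _) ht) h.ga (abs_nonneg _) zero_le_one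
  have e3 : ∀ l, |b.r w l * x l - b.r w' l * x' l| ≤ (δ + 4 * δ) * 2 := fun l =>
    prod_diff (h.r l) (d0 l) (bx l) ((hb.r w' l).trans (by norm_num))
  have e4 : |t * ((b.r w 0 * x 0 - b.r w' 0 * x' 0) + (b.r w 1 * x 1 - b.r w' 1 * x' 1))| ≤
      1 * (20 * δ) := by
    rw [abs_mul]
    refine mul_le_mul ht ?_ (abs_nonneg _) zero_le_one
    refine (abs_add_le _ _).trans ?_
    linarith [e3 0, e3 1]
  have e5 : ∀ l, |s t l * (x l - x' l)| ≤ C0 * (4 * δ) := fun l => by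
    rw [abs_mul]; exact mul_le_mul (hs l) (d0 l) (abs_nonneg _) hC00
  have e6 : ∀ l l', |x l * x l' - x' l * x' l'| ≤ (4 * δ + 4 * δ) * 2 := fun l l' =>
    prod_diff (d0 l) (d0 l') (bx l') (bx' l)
  have e7 : ∀ i l l', |g t i * (x l * x l' - x' l * x' l')| ≤ C0 * (16 * δ) := fun i l l' => by
    rw [abs_mul]
    refine mul_le_mul (hg i) ((e6 l l').trans (le_of_eq (by ring))) (abs_nonneg _) hC00
  have key : b.disp s g t w - b.disp s g t w' =
      t * (b.be w - b.be w') + t ^ 2 * (b.ga w - b.ga w') -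
      t * ((b.r w 0 * x 0 - b.r w' 0 * x' 0) + (b.r w 1 * x 1 - b.r w' 1 * x' 1)) -
      (s t 0 * (x 0 - x' 0) + s t 1 * (x 1 - x' 1)) -
      (g t 0 * (x 0 * x 0 - x' 0 * x' 0) + 2 * (g t 1 * (x 0 * x 1 - x' 0 * x' 1)) +
        g t 2 * (x 1 * x 1 - x' 1 * x' 1)) / 2 := by
    unfold QB.disp
    rw [← hx, ← hx']
    ring
  rw [key]
  have f1 := abs_le.1 e1
  have f2 := abs_le.1 e2
  have f4 := abs_le.1 e4
  have f50 := abs_le.1 (e5 0)
  have f51 := abs_le.1 (e5 1)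
  have f70 := abs_le.1 (e7 0 0 0)
  have f71 := abs_le.1 (e7 1 0 1)
  have f72 := abs_le.1 (e7 2 1 1)
  have hδC : δ ≤ C0 * δ := by nlinarith
  rw [abs_le]
  constructor
  · linarith [f1.1, f1.2, f2.1, f2.2, f4.1, f4.2, f50.1, f50.2, f51.1, f51.2, f70.1, f70.2,
      f71.1, f71.2, f72.1, f72.2]
  · linarith [f1.1, f1.2, f2.1, f2.2, f4.1, f4.2, f50.1, f50.2, f51.1, f51.2, f70.1, f70.2,
      f71.1, f71.2, f72.1, f72.2]

lemma rowf_close {v v' Y Y' : Fin 2 → ℝ} {e : ℝ} (he : 0 ≤ e) (h1 : ∀ l, |v' l - v l| ≤ e)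
    (h2 : ∀ l, |Y' l - Y l| ≤ e) (hv : ∀ l, |v l| ≤ 1) (hY' : ∀ l, |Y' l| ≤ 1) (j : Fin 5) :
    |rowf v' Y' j - rowf v Y j| ≤ 4 * e := by
  have p : ∀ l l', |v' l * Y' l' - v l * Y l'| ≤ (e + e) * 1 := fun l l' =>
    prod_diff (h1 l) (h2 l') (hY' l') (hv l)
  fin_cases j
  · have := h1 0
    simp only [rowf, Fin.zero_eta, Matrix.cons_val_zero]
    linarith
  · have := h1 1
    simp only [rowf, Fin.mk_one, Matrix.cons_val_one, Matrix.cons_val_zero]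
    linarith
  · have := p 0 0
    simp only [rowf]
    simp
    linarith
  · have a1 := p 0 1
    have a2 := p 1 0
    have : rowf v' Y' 3 - rowf v Y 3 = (v' 0 * Y' 1 - v 0 * Y 1) + (v' 1 * Y' 0 - v 1 * Y 0) := by
      simp [rowf]
      ring
    change |rowf v' Y' 3 - rowf v Y 3| ≤ 4 * e
    rw [this]
    refine (abs_add_le _ _).trans ?_
    linarith
  · have := p 1 1
    simp only [rowf]
    simp
    linarith

lemma dirv_le (i : Fin 5) (l : Fin 2) : |dirv i l| ≤ 1 := by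
  fin_cases i <;> fin_cases l <;> simp [dirv]

/-- The determinant of the five pairs at the base time. -/
lemma QB.det_le {W : Type} {b : QB W} (hb : b.Bd) {δ₀ : ℝ}
    (hδ₀ : ∀ A : Matrix (Fin 5) (Fin 5) ℝ, (∀ i j, |A i j - Mst i j| ≤ δ₀) → 1 / 16 ≤ |A.det|)
    {δ σ : ℝ} (hδ : 0 ≤ δ) (hδδ : 8 * δ ≤ δ₀) (hσ : 0 < σ) {u v : Fin 5 → W}
    (hp : ∀ i, b.Pair δ σ (dirv i) (bas i) (u i) (v i)) (s : ℝ → Fin 2 → ℝ)
    (g : ℝ → Fin 3 → ℝ) :
    σ ^ 5 / 16 ≤ |((b.ctx s g).M u v).det.eval 0| := by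
  choose h hh1 hh2 hh3 using fun i => (hp i).ex
  have hh0 : ∀ i, h i ≠ 0 := fun i => by
    intro h0
    have := hh1 i
    rw [h0, abs_zero] at this
    linarith
  rw [eval_det]
  set A : Matrix (Fin 5) (Fin 5) ℝ := Matrix.of fun i =>
    rowf (fun l => (b.y (u i) l - b.y (v i) l) / h i)
      (fun l => (b.y (u i) l + b.y (v i) l) / 2) with hA
  have e1 : ((b.ctx s g).M u v).map (Polynomial.eval 0) = Matrix.of fun i j => h i * A i j := by
    ext i j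
    have h0 := hh0 i
    have y0 : ∀ w l, b.yt 0 w l = b.y w l := fun w l => by simp [QB.yt]
    fin_cases j
    · simp [Ctx.M, QB.ctx, hA, rowf, QB.eval_Y, y0]
      field_simp
    · simp [Ctx.M, QB.ctx, hA, rowf, QB.eval_Y, y0]
      field_simp
    · simp [Ctx.M, QB.ctx, hA, rowf, QB.eval_Y, y0]
      field_simp
      ring
    · simp [Ctx.M, QB.ctx, hA, rowf, QB.eval_Y, y0]
      field_simp
      ring
    · simp [Ctx.M, QB.ctx, hA, rowf, QB.eval_Y, y0]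
      field_simp
      ring
  rw [e1]
  have e2 : (Matrix.of fun i j => h i * A i j).det = (∏ i, h i) * A.det :=
    Matrix.det_mul_column h A
  rw [e2, abs_mul, Finset.abs_prod]
  have e3 : 1 / 16 ≤ |A.det| := by
    refine hδ₀ A fun i j => ?_
    have e4 : |rowf (fun l => (b.y (u i) l - b.y (v i) l) / h i)
        (fun l => (b.y (u i) l + b.y (v i) l) / 2) j - rowf (dirv i) (bas i) j| ≤
        4 * (2 * δ) := by
      refine rowf_close (by positivity) ?_ (fun l => (hp i).mid l) (dirv_le i) ?_ j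
      · intro l
        have h0 := hh0 i
        have e5 : (b.y (u i) l - b.y (v i) l) / h i - dirv i l =
            (b.y (u i) l - b.y (v i) l - h i * dirv i l) / h i := by
          field_simp
        rw [e5, abs_div, div_le_iff₀ (abs_pos.2 h0)]
        refine (hh3 i l).trans ?_
        have := hh1 i
        nlinarith
      · intro l
        have a1 := abs_le.1 (hb.y (u i) l)
        have a2 := abs_le.1 (hb.y (v i) l)
        rw [abs_le]
        constructor <;> linarith [a1.1, a1.2, a2.1, a2.2]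
    refine le_trans e4 ?_
    linarith
  have e6 : σ ^ 5 ≤ ∏ i, |h i| := by
    calc σ ^ 5 = ∏ _i : Fin 5, σ := by
          rw [Finset.prod_const, Finset.card_univ, Fintype.card_fin]
      _ ≤ ∏ i, |h i| := Finset.prod_le_prod (fun _ _ => hσ.le) (fun i _ => hh1 i)
  have e7 : 0 < σ ^ 5 := by positivity
  calc σ ^ 5 / 16 = σ ^ 5 * (1 / 16) := by ring
    _ ≤ (∏ i, |h i|) * |A.det| := mul_le_mul e6 e3 (by norm_num) (le_trans e7.le e6)

/-- **The critical step in quadric frames** (core of LEMMA P with Hessian). For all `s₀` and `C0`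
there are `M`, `σ`, `ε`, `κ` such that for every context with dense positions: if displacement
differences which are at most `s₀` are at most `η`, then all displacement differences are
`O(η)` outside the zeros of a polynomial, and the frame is a rational function of the time. -/
theorem rfq_thm (s₀ C0 : ℝ) (hs0 : 0 < s₀) (hs1 : s₀ ≤ 1) (hC0 : 1 ≤ C0) :
    ∃ (M : ℕ) (σ ε κ : ℝ), 0 < σ ∧ 0 < ε ∧ 0 < κ ∧ κ ≤ 1 ∧ M * σ ≤ 1 / 8 ∧ ε ≤ σ ∧
    ∀ (W : Type) (b : QB W) (s : ℝ → Fin 2 → ℝ) (g : ℝ → Fin 3 → ℝ) (T : Set ℝ)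
      (ζ t₂ η : ℝ) (τ : Fin 15 → ℝ), b.Bd → (∀ t ∈ T, |t| ≤ 1) →
      (∀ t ∈ T, (∀ i, |s t i| ≤ C0) ∧ ∀ i, |g t i| ≤ C0) → 0 < ζ → ζ ≤ 1 → 0 ≤ η → 0 ≤ t₂ →
      (∀ t ∈ T, ∀ w w', |b.disp s g t w - b.disp s g t w'| ≤ s₀ →
        |b.disp s g t w - b.disp s g t w'| ≤ η) →
      (∀ i, b.Dense M σ ε (dirv i) (bas i)) →
      (∀ i, τ i ∈ T) → (∀ i, |τ i| ≤ t₂) → (∀ i j, i ≠ j → ζ ≤ |τ i - τ j|) →
      8 * 6 ^ 2 * (cL 14 + 1) * dE 5 8 * 8 ^ 2 * (t₂ + η) ≤ κ * s₀ →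
      ∃ (q : ℝ[X]) (G : Fin 5 → ℝ[X]), q.natDegree ≤ 10 ∧ κ ≤ |q.eval 0| ∧
        (∀ t, |t| ≤ 1 → |q.eval t| ≤ dE 5 8) ∧
        (∀ j, (G j).natDegree ≤ 12 ∧ (G j).eval 0 = 0 ∧
          ∀ t, |t| ≤ 1 → |(G j).eval t| ≤ 5 * (dE 5 8 * 16)) ∧
        (∀ t ∈ T, |q.eval t * s t 0 - (G 0).eval t| ≤ 5 * (dE 5 8 * η) ∧
          |q.eval t * s t 1 - (G 1).eval t| ≤ 5 * (dE 5 8 * η) ∧
          |q.eval t * g t 0 - (G 2).eval t| ≤ 5 * (dE 5 8 * η) ∧
          |q.eval t * g t 1 - (G 3).eval t| ≤ 5 * (dE 5 8 * η) ∧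
          |q.eval t * g t 2 - (G 4).eval t| ≤ 5 * (dE 5 8 * η)) ∧
        (∀ t ∈ T, ∀ w w', |q.eval t| * |b.disp s g t w - b.disp s g t w'| ≤
          6 * 15 * 6 ^ 2 * dE 5 8 * 8 * (2 / ζ) ^ 14 * η) := by
  obtain ⟨δ₀, hδ₀, hdel⟩ := exists_del
  set δ : ℝ := min (s₀ / (70 * C0)) (min (δ₀ / 8) (1 / 8)) with hδd
  have hδ : 0 < δ := by rw [hδd]; positivity
  have hδ1 : δ ≤ 1 / 8 := (min_le_right _ _).trans (min_le_right _ _)
  have hδ2 : 8 * δ ≤ δ₀ := by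
    have : δ ≤ δ₀ / 8 := (min_le_right _ _).trans (min_le_left _ _)
    linarith
  have hδ3 : 70 * C0 * δ ≤ s₀ := by
    have : δ ≤ s₀ / (70 * C0) := min_le_left _ _
    rw [le_div_iff₀ (by positivity)] at this
    linarith
  obtain ⟨M, hM⟩ := exists_nat_gt ((2 / δ + 2) ^ 6)
  have hM0 : (0 : ℝ) < M := lt_trans (by positivity) hM
  have hM1 : (1 : ℝ) ≤ M := by
    have : (1 : ℝ) ≤ (2 / δ + 2) ^ 6 := one_le_pow₀ (by
      have : 0 < 2 / δ := by positivity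
      linarith)
    linarith
  set σ : ℝ := δ / M with hσd
  have hσ : 0 < σ := by positivity
  have hσ1 : σ ≤ 1 := by
    rw [hσd, div_le_one hM0]
    linarith
  have hMσ : (M : ℝ) * σ = δ := by rw [hσd]; field_simp
  refine ⟨M, σ, δ * σ, σ ^ 5 / 16, hσ, by positivity, by positivity, ?_, ?_, ?_, ?_⟩
  · have : σ ^ 5 ≤ 1 := pow_le_one₀ hσ.le hσ1
    linarith
  · rw [hMσ]; exact hδ1
  · nlinarith
  intro W b s g T ζ t₂ η τ hb hT hsg hζ hζ1 hη ht2 hgap hd hτ hτ2 hτ3 hsm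
  have hpairs : ∀ i, ∃ w w', b.Pair δ σ (dirv i) (bas i) w w' := fun i =>
    QB.exists_pair hb hδ (by linarith) hM (dirv_le i) (hd i)
  choose u v hp using hpairs
  have hc := QB.bdd hb s g
  have hdet := QB.det_le hb hdel hδ.le hδ2 hσ hp s g
  have hκ1 : σ ^ 5 / 16 ≤ 1 := by
    have : σ ^ 5 ≤ 1 := pow_le_one₀ hσ.le hσ1
    linarith
  have key := rat_thm (D := 14) (by norm_num) hc hT (by positivity : 0 < σ ^ 5 / 16) hκ1 hs0 hs1
    hζ hζ1 hη ht2 (by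
      intro t ht w w' h
      rw [QB.disp_eq, QB.disp_eq] at h ⊢
      exact hgap t ht w w' h) (by
      intro t ht i
      rw [QB.disp_eq, QB.disp_eq]
      refine ((hp i).disp hb hδ.le hσ1 (dirv_le i) (hT t ht) hC0 (hsg t ht).1
        (hsg t ht).2).trans hδ3) hdet τ hτ hτ2 hτ3 (by
      refine le_trans (le_of_eq ?_) hsm
      norm_num)
  refine ⟨((b.ctx s g).M u v).det, (b.ctx s g).G u v, ?_, hdet, fun t ht => Ctx.det_bd hc ht,
    fun j => ⟨?_, Ctx.G_zero hc j, fun t ht => ?_⟩, fun t ht => ?_, fun t ht w w' => ?_⟩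
  · exact (natDegree_det_le _ (fun i j => Ctx.degM hc i j)).trans (by norm_num)
  · exact (Ctx.degG hc j).trans (by norm_num)
  · refine (Ctx.G_bd hc ht j).trans (le_of_eq ?_)
    norm_num
  · have k0 := key.1 t ht
    have a0 := k0 0
    have a1 := k0 1
    have a2 := k0 2
    have a3 := k0 3
    have a4 := k0 4
    norm_num at a0 a1 a2 a3 a4
    exact ⟨a0, a1, a2, a3, a4⟩
  · have k1 := key.2 t ht w w'
    rw [QB.disp_eq, QB.disp_eq] at k1
    refine k1.trans (le_of_eq ?_)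
    norm_num

end Pool.QQ
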